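import Mathlib
import Pool.Agent.Q79.TuranG

open Polynomial Set

namespace Pool.Agent.Results.MP_d240f8_an.OddTuran

/-- `‖P‖ = max_{[-1,1]} |P|`. -/
noncomputable def unifNorm (P : ℝ[X]) : ℝ := sSup ((fun x => |P.eval x|) '' Icc (-1) 1)

/-- The real polynomials of degree exactly `n` all of whose `n` zeros, counted with multiplicity,
lie in `[-1, 1]`. -/
def zerosIn (n : ℕ) : Set ℝ[X] :=
  {P | P ≠ 0 ∧ P.natDegree = n ∧ P.roots.card = n ∧ ∀ z ∈ P.roots, z ∈ Icc (-1 : ℝ) 1}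

/-- `C_n = inf { ‖P''‖ / ‖P‖ : P ∈ zerosIn n }`. -/
noncomputable def turanConst (n : ℕ) : ℝ :=
  sInf {r | ∃ P ∈ zerosIn n, r = unifNorm (derivative (derivative P)) / unifNorm P}

/-- `Q_m(x) = (1 - x)^m (1 + x)^(m+1)`. -/
noncomputable def Q (m : ℕ) : ℝ[X] := (1 - X) ^ m * (1 + X) ^ (m + 1)

/-- **Q1.** For every odd degree `n = 2 m + 1 ≥ 7` the polynomial `Q_m` is extremal, the extremal
polynomials are exactly the nonzero multiples of `Q_m(x)` and `Q_m(-x)`, and `‖Q_m‖`, `‖Q_m''‖`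
are given explicitly in terms of the root of a cubic. -/
theorem result (m : ℕ) (hm : 3 ≤ m) :
    turanConst (2 * m + 1) = unifNorm (derivative (derivative (Q m))) / unifNorm (Q m) ∧
    (∀ P ∈ zerosIn (2 * m + 1),
      turanConst (2 * m + 1) * unifNorm P ≤ unifNorm (derivative (derivative P)) ∧
      (unifNorm (derivative (derivative P)) = turanConst (2 * m + 1) * unifNorm P ↔
        ∃ a : ℝ, a ≠ 0 ∧ (P = C a * Q m ∨ P = C a * (Q m).comp (-X)))) ∧
    Q m ∈ zerosIn (2 * m + 1) ∧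
    unifNorm (Q m) = 2 ^ (2 * m + 1) * m ^ m * (m + 1) ^ (m + 1) / (2 * m + 1) ^ (2 * m + 1) ∧
    ∃ ξ : ℝ, 1 / (2 * m + 1) < ξ ∧ ξ < 2 / (2 * m + 1) ∧
      (∀ x : ℝ, 1 / (2 * m + 1) ≤ x → x ≤ 2 / (2 * m + 1) →
        ((2 * m + 1) * (2 * m - 1) * x ^ 3 - 3 * (2 * m - 1) * x ^ 2 - 3 * (2 * m - 1) * x + 3 = 0 ↔
          x = ξ)) ∧
      unifNorm (derivative (derivative (Q m))) =
        2 * m * (1 - ξ) ^ (m - 2) * (1 + ξ) ^ (m - 1) * (1 + 2 * ξ - (2 * m + 1) * ξ ^ 2) := by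
  obtain ⟨i, rfl⟩ : ∃ i, m = i + 3 := ⟨m - 3, by omega⟩
  have hi : (0 : ℝ) ≤ i := i.cast_nonneg
  set j : ℕ := i + 1 with hj
  have hj1 : 1 ≤ j := by omega
  have hjR : (j : ℝ) = i + 1 := by rw [hj]; push_cast; rfl
  obtain ⟨w, hw0, hw1, hG1, hG2, hmax, hall⟩ := Q79.Turan.exists_max hj1
  have hG0 : 0 < Q79.Turan.G j w := by linarith
  have hw1' : w ≤ 2 / 3 := hw1.trans (by
    rw [div_le_div_iff₀ (by positivity) (by norm_num)]; rw [hjR]; linarith)
  have hQQ : ∀ k, Q k = Q79.Turan.Q k := fun _ => rfl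
  have hnn : ∀ P, unifNorm P = Q79.Turan.nrm P := fun _ => rfl
  have hQ : Q (i + 3) = Q79.Turan.Q (j + 2) := rfl
  have hnQ : unifNorm (Q (i + 3)) = Q79.Turan.KQ j := Q79.Turan.nrm_Q j
  have hnQ2 : unifNorm (derivative (derivative (Q (i + 3)))) = Q79.Turan.KQ j * Q79.Turan.Cst j w :=
    Q79.Turan.nrm_Q_dd hw0 (by rw [hjR]; linarith) hmax
  have hK := Q79.Turan.KQ_pos j
  have hCst : unifNorm (derivative (derivative (Q (i + 3)))) / unifNorm (Q (i + 3)) =
      Q79.Turan.Cst j w := by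
    rw [hnQ, hnQ2]; field_simp
  -- membership of `Q`
  have hQne : Q (i + 3) ≠ 0 := by
    intro h
    rw [h] at hnQ
    have : unifNorm (0 : ℝ[X]) = 0 := by
      obtain ⟨x, hx, h1, h2⟩ := Q79.Turan.exists_nrm 0
      rw [hnn, ← h1]; simp
    linarith
  have hQmem : Q (i + 3) ∈ zerosIn (2 * (i + 3) + 1) := by
    refine ⟨hQne, Q79.Turan.Q_natDegree _, ?_, ?_⟩
    · rw [hQQ, Q79.Turan.Q_roots]; simp; ring
    · intro z hz
      rw [hQQ, Q79.Turan.Q_roots, Multiset.mem_add] at hz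
      rcases hz with hz | hz
      · rw [Multiset.eq_of_mem_replicate hz]; constructor <;> norm_num
      · rw [Multiset.eq_of_mem_replicate hz]; constructor <;> norm_num
  -- the inequality
  have hpos : ∀ P ∈ zerosIn (2 * (i + 3) + 1), 0 < unifNorm P := by
    intro P hP
    by_contra hcon
    push Not at hcon
    apply hP.1
    apply Polynomial.eq_zero_of_infinite_isRoot
    refine (Icc_infinite (show (-1 : ℝ) < 1 by norm_num)).mono (fun z hz => ?_)
    have := Q79.Turan.le_nrm P hz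
    exact abs_nonpos_iff.1 (this.trans hcon)
  have hmain : ∀ P ∈ zerosIn (2 * (i + 3) + 1),
      Q79.Turan.Cst j w * unifNorm P ≤ unifNorm (derivative (derivative P)) ∧
      (unifNorm (derivative (derivative P)) = Q79.Turan.Cst j w * unifNorm P →
        ∃ a : ℝ, a ≠ 0 ∧ (P = C a * Q (i + 3) ∨ P = C a * (Q (i + 3)).comp (-X))) := by
    intro P hP
    obtain ⟨hP0, hdeg, hcard, hz⟩ := hP
    obtain ⟨t, ht, htm⟩ := Q79.Turan.exists_factor hP0 (by rw [hcard, hdeg])
    have ha : P.leadingCoeff ≠ 0 := leadingCoeff_ne_zero.2 hP0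
    obtain ⟨h1, h2⟩ := Q79.Turan.main (ι := Fin P.natDegree) hj1 hw0 hw1 hG0 hG2
      (by rw [Fintype.card_fin, hdeg]; omega) ha (fun k => hz _ (htm k)) ht
    refine ⟨h1, fun h => ?_⟩
    obtain ⟨L, hL, hL1, hL2⟩ := h2 h
    have hcc : L.card + Lᶜ.card = 2 * j + 5 := by
      rw [Finset.card_add_card_compl, Fintype.card_fin, hdeg]; omega
    have e1 : P = C P.leadingCoeff * ((1 + X) ^ L.card * (C (-1) * (1 - X)) ^ Lᶜ.card) := by
      conv_lhs => rw [ht]
      congr 1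
      rw [← Finset.prod_mul_prod_compl L]
      congr 1
      · rw [← Finset.prod_const]
        apply Finset.prod_congr rfl
        intro k hk
        rw [hL1 k hk, C_neg, C_1]; ring
      · rw [← Finset.prod_const]
        apply Finset.prod_congr rfl
        intro k hk
        rw [hL2 k (Finset.mem_compl.1 hk), C_neg, C_1]; ring
    generalize P.leadingCoeff = a at ha e1
    rcases hL with hL | hL
    · have hLc : Lᶜ.card = j + 2 := by omega
      refine ⟨a * (-1) ^ (j + 2), mul_ne_zero ha (pow_ne_zero _ (by norm_num)), Or.inl ?_⟩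
      rw [e1, hL, hLc]
      unfold Q
      rw [mul_pow, C_mul, C_pow]
      ring
    · have hLc : Lᶜ.card = j + 3 := by omega
      refine ⟨a * (-1) ^ (j + 3), mul_ne_zero ha (pow_ne_zero _ (by norm_num)), Or.inr ?_⟩
      rw [e1, hL, hLc]
      unfold Q
      rw [mul_pow, C_mul, C_pow]
      simp only [mul_comp, pow_comp, sub_comp, add_comp, one_comp, X_comp, sub_neg_eq_add]
      ring
  -- the constant
  have hC : turanConst (2 * (i + 3) + 1) = Q79.Turan.Cst j w := by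
    have : IsLeast {r | ∃ P ∈ zerosIn (2 * (i + 3) + 1),
        r = unifNorm (derivative (derivative P)) / unifNorm P} (Q79.Turan.Cst j w) := by
      refine ⟨⟨Q (i + 3), hQmem, hCst.symm⟩, ?_⟩
      rintro r ⟨P, hP, rfl⟩
      rw [le_div_iff₀ (hpos P hP)]
      exact (hmain P hP).1
    exact this.csInf_eq
  have hsym : ∀ a : ℝ, ∀ R : ℝ[X], R = Q (i + 3) ∨ R = (Q (i + 3)).comp (-X) →
      unifNorm (derivative (derivative (C a * R))) = Q79.Turan.Cst j w * unifNorm (C a * R) := by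
    intro a R hR
    have e1 : unifNorm R = Q79.Turan.KQ j := by
      rcases hR with rfl | rfl
      · exact hnQ
      · rw [hnn, Q79.Turan.nrm_comp_neg]; exact hnQ
    have e2 : unifNorm (derivative (derivative R)) = Q79.Turan.KQ j * Q79.Turan.Cst j w := by
      rcases hR with rfl | rfl
      · exact hnQ2
      · have : derivative (derivative ((Q (i + 3)).comp (-X))) =
            (derivative (derivative (Q (i + 3)))).comp (-X) := by
          simp [derivative_comp]
        rw [this, hnn, Q79.Turan.nrm_comp_neg]; exact hnQ2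
    rw [derivative_C_mul, derivative_C_mul, hnn, hnn, Q79.Turan.nrm_C_mul, Q79.Turan.nrm_C_mul,
      ← hnn, ← hnn, e1, e2]
    ring
  refine ⟨by rw [hC, hCst], fun P hP => ⟨?_, ?_, ?_⟩, hQmem, ?_, ?_⟩
  · rw [hC]; exact (hmain P hP).1
  · rw [hC]; exact (hmain P hP).2
  · rintro ⟨a, ha, h | h⟩
    · rw [hC, h]; exact hsym a _ (Or.inl rfl)
    · rw [hC, h]; exact hsym a _ (Or.inr rfl)
  · rw [hnQ]
    unfold Q79.Turan.KQ
    rw [hjR, hj, div_pow, div_pow, div_mul_div_comm, ← pow_add]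
    have e1 : (2 * ((i : ℝ) + 1) + 6) = 2 * ((i + 3 : ℕ) + 1) := by push_cast; ring
    have e2 : (2 * ((i : ℝ) + 1) + 4) = 2 * ((i + 3 : ℕ)) := by push_cast; ring
    have e3 : (2 * ((i : ℝ) + 1) + 5) = 2 * ((i + 3 : ℕ)) + 1 := by push_cast; ring
    rw [e1, e2, e3, mul_pow, mul_pow]
    ring
  · -- the critical point
    set n : ℝ := 2 * ((i + 3 : ℕ) : ℝ) + 1 with hn
    have hnj : n = 2 * j + 5 := by rw [hn, hjR]; push_cast; ring
    have hni : n = 2 * i + 7 := by rw [hn]; push_cast; ring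
    have hn7 : 7 ≤ n := by rw [hni]; linarith
    set ξ : ℝ := (w + 1) / n with hξ
    have hnξ : n * ξ = w + 1 := by rw [hξ]; field_simp
    have hξ1 : 1 / n ≤ ξ := by rw [hξ]; gcongr; linarith
    have hξ2 : ξ < 2 / n := by rw [hξ]; gcongr; linarith
    have hn2 : 2 / n ≤ 2 / 7 := by gcongr
    have hξpos : 0 < ξ := lt_of_lt_of_le (by positivity) hξ1
    have hQdd : (derivative (derivative (Q (i + 3)))).eval ξ =
        -(Q79.Turan.KQ j * Q79.Turan.Cst j w) := by
      rw [hQ, Q79.Turan.Q_dd_eval, ← hnj, hnξ, add_sub_cancel_right]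
    have hmin : IsLocalMin (fun z => (derivative (derivative (Q (i + 3)))).eval z) ξ := by
      filter_upwards [Icc_mem_nhds (show -1 < ξ by linarith) (show ξ < 1 by linarith)] with z hz
      have h1 := Q79.Turan.le_nrm (derivative (derivative (Q (i + 3)))) hz
      rw [← hnn, hnQ2] at h1
      rw [hQdd]
      exact (abs_le.1 h1).1
    have hder := hmin.hasDerivAt_eq_zero (Polynomial.hasDerivAt _ ξ)
    have hcub : (2 * (i : ℝ) + 7) * (2 * i + 5) * ξ ^ 3 - 3 * (2 * i + 5) * ξ ^ 2 -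
        3 * (2 * i + 5) * ξ + 3 = 0 := by
      rw [hQQ, Q79.Turan.Q_ddd_eval] at hder
      have h1 : 0 < 2 * ((i : ℝ) + 3) := by positivity
      have h2 : 0 < (1 - ξ) ^ i * (1 + ξ) ^ (i + 1) :=
        mul_pos (pow_pos (by linarith) _) (pow_pos (by linarith) _)
      have h3 := neg_eq_zero.1 hder
      have h4 := (mul_eq_zero.1 h3).resolve_left h1.ne'
      exact (mul_eq_zero.1 h4).resolve_left h2.ne'
    have huniq : ∀ x : ℝ, 0 ≤ x → x ≤ 2 / n → (2 * (i : ℝ) + 7) * (2 * i + 5) * x ^ 3 -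
        3 * (2 * i + 5) * x ^ 2 - 3 * (2 * i + 5) * x + 3 = 0 → x = ξ := by
      intro x hx0 hx1 hx
      by_contra hne
      have h1 : (x - ξ) * ((2 * (i : ℝ) + 5) * ((2 * i + 7) * (x ^ 2 + x * ξ + ξ ^ 2) -
          3 * (x + ξ) - 3)) = 0 := by linear_combination hx - hcub
      have h2 : (2 * (i : ℝ) + 5) ≠ 0 := by positivity
      have h3 := (mul_eq_zero.1 h1).resolve_left (sub_ne_zero.2 hne)
      have h4 := (mul_eq_zero.1 h3).resolve_left h2
      rw [← hni] at h4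
      have hb : n * x ≤ 2 := by
        calc n * x ≤ n * (2 / n) := by gcongr
          _ = 2 := by field_simp
      have hb2 : n * ξ ≤ 2 := by linarith
      have hx7 : x ≤ 2 / 7 := hx1.trans hn2
      have hξ7 : ξ ≤ 2 / 7 := hξ2.le.trans hn2
      nlinarith [mul_nonneg hx0 hξpos.le]
    refine ⟨ξ, ?_, hξ2, ?_, ?_⟩
    · refine lt_of_le_of_ne hξ1 (fun h => ?_)
      have e1 : n * ξ = 1 := by rw [← h]; field_simp
      have e2 : (n * (n - 2) * ξ ^ 3 - 3 * (n - 2) * ξ ^ 2 - 3 * (n - 2) * ξ + 3) * n ^ 2 = 0 := by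
        have : (2 * (i : ℝ) + 5) = n - 2 := by rw [hni]; ring
        rw [← hni, this] at hcub
        rw [hcub, zero_mul]
      have e3 : (n * (n - 2) * ξ ^ 3 - 3 * (n - 2) * ξ ^ 2 - 3 * (n - 2) * ξ + 3) * n ^ 2 =
          (n - 2) * (n * ξ) ^ 3 - 3 * (n - 2) * (n * ξ) ^ 2 - 3 * (n - 2) * n * (n * ξ) + 3 * n ^ 2 := by
        ring
      rw [e3, e1] at e2
      nlinarith
    · intro x hx1 hx2
      have h0 : 0 ≤ x := le_trans (by positivity) hx1
      have e : (2 * ((i + 3 : ℕ) : ℝ) - 1) = 2 * i + 5 := by push_cast; ring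
      rw [e, hni]
      exact ⟨fun h => huniq x h0 hx2 h, fun h => by rw [h]; exact hcub⟩
    · have h1 : unifNorm (derivative (derivative (Q (i + 3)))) =
          -(derivative (derivative (Q (i + 3)))).eval ξ := by rw [hQdd, hnQ2, neg_neg]
      rw [h1, hQQ, Q79.Turan.Q_dd_eval', show i + 3 - 2 = i + 1 from rfl,
        show i + 3 - 1 = i + 2 from rfl, hni]
      push_cast
      ring

end Pool.Agent.Results.MP_d240f8_an.OddTuran
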